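import Mathlib

/-! Finite-dimensional spaces. -/

namespace Pool.Agent.R571.PC

open Filter Topology

variable {X : Type*} [NormedAddCommGroup X] [NormedSpace ℝ X]

theorem finite_dim [FiniteDimensional ℝ X] :
    ∃ r : ℝ, r < 2 ∧ ∃ P : Set X, (∀ x ∈ P, ∀ y ∈ P, x ≠ y → 2 ≤ ‖x - y‖) ∧
      ∀ x, ∃ p ∈ P, ‖x - p‖ ≤ r := by
  classical
  let e : X ≃L[ℝ] (Fin (Module.finrank ℝ X) → ℝ) := (Module.finBasis ℝ X).equivFunL
  obtain ⟨M, hM0, hM⟩ : ∃ M : ℝ, 0 < M ∧ ∀ x, ‖e x‖ ≤ M * ‖x‖ :=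
    ⟨‖(e : X →L[ℝ] (Fin (Module.finrank ℝ X) → ℝ))‖ + 1, by positivity, fun x => by
      have := (e : X →L[ℝ] (Fin (Module.finrank ℝ X) → ℝ)).le_opNorm x
      have h2 := norm_nonneg x
      have h3 : ‖e x‖ = ‖(e : X →L[ℝ] (Fin (Module.finrank ℝ X) → ℝ)) x‖ := rfl
      rw [h3]
      nlinarith⟩
  -- the lattice
  let La : Set X := {x | ∀ i, ∃ k : ℤ, e x i = (2 * M) * k}
  have hLa0 : (0:X) ∈ La := fun i => ⟨0, by simp⟩
  have hLaneg : ∀ x ∈ La, -x ∈ La := by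
    intro x hx i
    obtain ⟨k, hk⟩ := hx i
    exact ⟨-k, by rw [map_neg, Pi.neg_apply, hk]; push_cast; ring⟩
  have hLasub : ∀ x ∈ La, ∀ y ∈ La, x - y ∈ La := by
    intro x hx y hy i
    obtain ⟨k, hk⟩ := hx i
    obtain ⟨l, hl⟩ := hy i
    exact ⟨k - l, by rw [map_sub, Pi.sub_apply, hk, hl]; push_cast; ring⟩
  have hLaadd : ∀ x ∈ La, ∀ y ∈ La, x + y ∈ La := by
    intro x hx y hy
    have := hLasub x hx (-y) (hLaneg y hy)
    rwa [sub_neg_eq_add] at this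
  have hLanorm : ∀ x ∈ La, x ≠ 0 → 2 ≤ ‖x‖ := by
    intro x hx hne
    have h1 : e x ≠ 0 := fun h => hne (e.map_eq_zero_iff.1 h)
    obtain ⟨i, hi⟩ := Function.ne_iff.1 h1
    obtain ⟨k, hk⟩ := hx i
    have hk0 : k ≠ 0 := by
      rintro rfl
      apply hi
      rw [hk]
      simp
    have h2 : (1:ℝ) ≤ |(k:ℝ)| := by
      rw [← Int.cast_abs]
      exact_mod_cast Int.one_le_abs hk0
    have h3 : ‖e x i‖ ≤ ‖e x‖ := norm_le_pi_norm _ i
    have h4 : ‖e x i‖ = 2 * M * |(k:ℝ)| := by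
      rw [hk, Real.norm_eq_abs, abs_mul, abs_of_pos (by positivity : (0:ℝ) < 2 * M)]
    have h5 := hM x
    have h6 : 2 * M ≤ M * ‖x‖ := by nlinarith
    by_contra hcon
    push Not at hcon
    nlinarith
  -- maximal periodic separated set
  obtain ⟨P, hP⟩ := zorn_subset {P : Set X | (∀ p ∈ P, ∀ l ∈ La, p + l ∈ P) ∧
      ∀ x ∈ P, ∀ y ∈ P, x ≠ y → 2 ≤ ‖x - y‖} (by
    intro c hc hchain
    refine ⟨⋃₀ c, ⟨?_, ?_⟩, fun s hs => Set.subset_sUnion_of_mem hs⟩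
    · rintro p ⟨s, hs, hp⟩ l hl
      exact ⟨s, hs, (hc hs).1 p hp l hl⟩
    · rintro x ⟨s, hs, hx⟩ y ⟨t, ht, hy⟩ hxy
      rcases hchain.total hs ht with h | h
      · exact (hc ht).2 x (h hx) y hy hxy
      · exact (hc hs).2 x hx y (h hy) hxy)
  obtain ⟨hPp, hPs⟩ := hP.prop
  have hclose : ∀ x, ∃ p ∈ P, ‖x - p‖ < 2 := by
    intro x
    by_contra hcon
    push Not at hcon
    have hx : x ∉ P := by
      intro hx
      have := hcon x hx
      simp at this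
      linarith
    have hmem : P ∪ {z | ∃ l ∈ La, z = x + l} ∈ {P : Set X | (∀ p ∈ P, ∀ l ∈ La, p + l ∈ P) ∧
        ∀ x ∈ P, ∀ y ∈ P, x ≠ y → 2 ≤ ‖x - y‖} := by
      have key : ∀ p ∈ P, ∀ l ∈ La, 2 ≤ ‖x + l - p‖ := by
        intro p hp l hl
        have := hcon (p + -l) (hPp p hp _ (hLaneg l hl))
        have e1 : x - (p + -l) = x + l - p := by abel
        rwa [e1] at this
      refine ⟨?_, ?_⟩
      · rintro p (hp | ⟨l', hl', rfl⟩) l hl
        · exact Or.inl (hPp p hp l hl)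
        · exact Or.inr ⟨l' + l, hLaadd _ hl' _ hl, by abel⟩
      · rintro a (ha | ⟨l, hl, rfl⟩) b (hb | ⟨l', hl', rfl⟩) hab
        · exact hPs a ha b hb hab
        · rw [norm_sub_rev]
          exact key a ha l' hl'
        · exact key b hb l hl
        · have e1 : x + l - (x + l') = l - l' := by abel
          rw [e1]
          apply hLanorm _ (hLasub _ hl _ hl')
          intro h0
          apply hab
          rw [sub_eq_zero.1 h0]
    have h1 := hP.le_of_ge hmem Set.subset_union_left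
    exact hx (h1 (Or.inr ⟨0, hLa0, by simp⟩))
  -- compactness
  let K : Set X := e.symm '' (Set.pi Set.univ fun _ => Set.Icc (0:ℝ) (2 * M))
  have hK : IsCompact K := (isCompact_univ_pi fun _ => isCompact_Icc).image e.symm.continuous
  have hKcover : ∀ x, ∃ l ∈ La, x + l ∈ K := by
    intro x
    let f : Fin (Module.finrank ℝ X) → ℝ := fun i => (2 * M) * (-⌊e x i / (2 * M)⌋ : ℤ)
    refine ⟨e.symm f, fun i => ⟨-⌊e x i / (2 * M)⌋, by rw [e.apply_symm_apply]⟩,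
      e x + f, ?_, ?_⟩
    · intro i _
      have h2M : (0:ℝ) < 2 * M := by positivity
      have h1 := Int.floor_le (e x i / (2 * M))
      have h2 := Int.lt_floor_add_one (e x i / (2 * M))
      rw [le_div_iff₀ h2M] at h1
      rw [div_lt_iff₀ h2M] at h2
      simp only [Pi.add_apply, f, Set.mem_Icc]
      push_cast
      constructor <;> nlinarith
    · rw [map_add, e.symm_apply_apply]
  let U : ℕ → Set X := fun k => {x | ∃ p ∈ P, ‖x - p‖ < 2 - 1 / ((k:ℝ) + 1)}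
  have hUo : ∀ k, IsOpen (U k) := by
    intro k
    have : U k = ⋃ p ∈ P, {x | ‖x - p‖ < 2 - 1 / ((k:ℝ) + 1)} := by
      ext x
      simp [U]
    rw [this]
    exact isOpen_biUnion fun p _ => isOpen_lt (by fun_prop) continuous_const
  have hUm : Monotone U := by
    rintro k l hkl x ⟨p, hp, hxp⟩
    refine ⟨p, hp, hxp.trans_le ?_⟩
    have : 1 / ((l:ℝ) + 1) ≤ 1 / ((k:ℝ) + 1) := by
      apply one_div_le_one_div_of_le (by positivity)
      have : (k:ℝ) ≤ l := by exact_mod_cast hkl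
      linarith
    linarith
  have hUc : K ⊆ ⋃ k, U k := by
    intro x _
    obtain ⟨p, hp, hxp⟩ := hclose x
    obtain ⟨k, hk⟩ := exists_nat_one_div_lt (sub_pos.2 hxp)
    exact Set.mem_iUnion.2 ⟨k, p, hp, by linarith⟩
  obtain ⟨k, hk⟩ := hK.elim_directed_cover U hUo hUc hUm.directed_le
  refine ⟨2 - 1 / ((k:ℝ) + 1), by
    have : (0:ℝ) < 1 / ((k:ℝ) + 1) := by positivity
    linarith, P, hPs, fun x => ?_⟩
  obtain ⟨l, hl, hxl⟩ := hKcover x
  obtain ⟨p, hp, hxp⟩ := hk hxl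
  refine ⟨p + -l, hPp p hp _ (hLaneg l hl), ?_⟩
  have e1 : x - (p + -l) = x + l - p := by abel
  rw [e1]
  exact hxp.le

end Pool.Agent.R571.PC
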