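import Mathlib

/-! A greedy packing lemma with look-ahead. -/

namespace Pool.Agent.R571.PC

open Filter Topology

variable {X : Type*} [NormedAddCommGroup X] [NormedSpace ℝ X]

/-- good finite sets for the greedy construction -/
def Good (tau : X → ℝ) (d t : ℝ) (F : Finset X) : Prop :=
  ∀ p ∈ F, ∀ q ∈ F, p ≠ q → d ≤ ‖p - q‖ ∧ t ≤ tau ((1/2:ℝ) • (p - q))

lemma good_step {tau : X → ℝ} {s eta eps e Th : ℝ} (hs : 0 ≤ s) (heta : 0 < eta)
    (heps : 0 < eps) (he : 0 ≤ e)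
    (t1 : ∀ x y, |tau x - tau y| ≤ ‖x - y‖)
    (t2 : ∀ x y, tau ((1/2:ℝ) • (x + y)) ≤ (tau x + tau y) / 2)
    (t3 : ∀ y, |tau (-y) - tau y| ≤ e)
    (t4 : ∀ y, ‖y‖ - e / 2 ≤ tau y)
    (R : ∀ Y : Finset X, ∃ v : X, ‖v‖ ≤ s + eps ∧
      ∀ y ∈ Y, tau y - eps ≤ ‖y + v‖ ∧ Th - eps ≤ tau ((1/2:ℝ) • (y + v)))
    (n1 : eps + e / 2 < eta) (n2 : s + 3 * eta + 3 * eps + 2 * e ≤ Th)
    (F : Finset X) (hF : Good tau (s + 2 * eta - e / 2) (Th - eps - e) F) (x : X)
    (hx : ∀ p ∈ F, s + eta + eps < ‖x - p‖) :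
    ∃ z : X, ‖x - z‖ ≤ s + eta + eps ∧
      (∀ q ∈ F, s + 2 * eta - e / 2 ≤ ‖z - q‖ ∧ Th - eps - e ≤ tau ((1/2:ℝ) • (z - q)) ∧
        Th - eps - e ≤ tau ((1/2:ℝ) • (q - z))) := by
  classical
  -- at most one point of `F` is badly placed
  have huniq : ∀ p ∈ F, ∀ q ∈ F, tau (x - p) < s + 2 * eta - e / 2 + eta + eps →
      tau (x - q) < s + 2 * eta - e / 2 + eta + eps → p = q := by
    intro p hp q hq h1 h2
    by_contra hne
    have h3 := (hF q hq p hp (Ne.symm hne)).2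
    have h4 := t2 (x - p) (q - x)
    have e1 : (1/2:ℝ) • (x - p + (q - x)) = (1/2:ℝ) • (q - p) := by module
    rw [e1] at h4
    have h5 := (abs_le.1 (t3 (x - q))).2
    rw [neg_sub] at h5
    linarith
  -- the correction vector
  obtain ⟨h, hh, hJ⟩ : ∃ h : X, ‖h‖ ≤ eta ∧ ∀ q ∈ F,
      s + 2 * eta - e / 2 + eps ≤ tau (x + h - q) := by
    by_cases hex : ∃ p ∈ F, tau (x - p) < s + 2 * eta - e / 2 + eta + eps
    · obtain ⟨p, hp, hp2⟩ := hex
      have hxp := hx p hp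
      have hpos : 0 < ‖x - p‖ := by linarith
      refine ⟨(eta / ‖x - p‖) • (x - p), ?_, ?_⟩
      · rw [norm_smul, Real.norm_eq_abs, abs_of_pos (div_pos heta hpos),
          div_mul_cancel₀ _ hpos.ne']
      · intro q hq
        by_cases hpq : q = p
        · subst hpq
          have e2 : x + (eta / ‖x - q‖) • (x - q) - q = (1 + eta / ‖x - q‖) • (x - q) := by
            module
          have h6 := t4 (x + (eta / ‖x - q‖) • (x - q) - q)
          rw [e2] at h6 ⊢
          have h7 : ‖(1 + eta / ‖x - q‖) • (x - q)‖ = ‖x - q‖ + eta := by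
            rw [norm_smul, Real.norm_eq_abs, abs_of_pos (by positivity), add_mul, one_mul,
              div_mul_cancel₀ _ hpos.ne']
          rw [h7] at h6
          linarith
        · have h8 : ¬ tau (x - q) < s + 2 * eta - e / 2 + eta + eps := fun hc =>
            hpq (huniq q hq p hp hc hp2)
          have h9 := (abs_le.1 (t1 (x - q) (x + (eta / ‖x - p‖) • (x - p) - q))).2
          have e3 : x - q - (x + (eta / ‖x - p‖) • (x - p) - q) =
              -((eta / ‖x - p‖) • (x - p)) := by abel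
          rw [e3, norm_neg, norm_smul, Real.norm_eq_abs, abs_of_pos (div_pos heta hpos),
            div_mul_cancel₀ _ hpos.ne'] at h9
          linarith [not_lt.1 h8]
    · push Not at hex
      refine ⟨0, by simpa using heta.le, fun q hq => ?_⟩
      have := hex q hq
      rw [add_zero]
      linarith
  obtain ⟨v, hv, hvR⟩ := R (F.image (fun q => x + h - q))
  refine ⟨x + h + v, ?_, fun q hq => ?_⟩
  · have e4 : x - (x + h + v) = -(h + v) := by abel
    rw [e4, norm_neg]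
    have := norm_add_le h v
    linarith
  · obtain ⟨h10, h11⟩ := hvR (x + h - q) (Finset.mem_image_of_mem _ hq)
    have e5 : x + h + v - q = x + h - q + v := by abel
    have e6 : (1/2:ℝ) • (q - (x + h + v)) = -((1/2:ℝ) • (x + h - q + v)) := by module
    refine ⟨?_, ?_, ?_⟩
    · rw [e5]
      linarith [hJ q hq]
    · rw [e5]
      linarith
    · rw [e6]
      have := (abs_le.1 (t3 ((1/2:ℝ) • (x + h - q + v)))).1
      linarith

theorem packing [TopologicalSpace.SeparableSpace X] (tau : X → ℝ) (s eta eps e Th : ℝ)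
    (hs : 0 ≤ s) (heta : 0 < eta) (heps : 0 < eps) (he : 0 ≤ e)
    (t1 : ∀ x y, |tau x - tau y| ≤ ‖x - y‖)
    (t2 : ∀ x y, tau ((1/2:ℝ) • (x + y)) ≤ (tau x + tau y) / 2)
    (t3 : ∀ y, |tau (-y) - tau y| ≤ e)
    (t4 : ∀ y, ‖y‖ - e / 2 ≤ tau y)
    (R : ∀ Y : Finset X, ∃ v : X, ‖v‖ ≤ s + eps ∧
      ∀ y ∈ Y, tau y - eps ≤ ‖y + v‖ ∧ Th - eps ≤ tau ((1/2:ℝ) • (y + v)))
    (n1 : eps + e / 2 < eta) (n2 : s + 3 * eta + 3 * eps + 2 * e ≤ Th) :
    ∃ r : ℝ, r < 2 ∧ ∃ P : Set X, (∀ x ∈ P, ∀ y ∈ P, x ≠ y → 2 ≤ ‖x - y‖) ∧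
      ∀ x, ∃ p ∈ P, ‖x - p‖ ≤ r := by
  classical
  set rho : ℝ := s + eta + eps with hrho
  set d : ℝ := s + 2 * eta - e / 2 with hd
  have hrd : rho < d := by rw [hrho, hd]; linarith
  have hrho0 : 0 < rho := by rw [hrho]; linarith
  have hd0 : 0 < d := by linarith
  -- one greedy step
  have step : ∀ (x : X) (F : {F : Finset X // Good tau d (Th - eps - e) F}),
      ∃ F' : {F : Finset X // Good tau d (Th - eps - e) F}, F.1 ⊆ F'.1 ∧
        ∃ p ∈ F'.1, ‖x - p‖ ≤ rho := by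
    rintro x ⟨F, hF⟩
    by_cases hc : ∃ p ∈ F, ‖x - p‖ ≤ rho
    · exact ⟨⟨F, hF⟩, subset_rfl, hc⟩
    · push Not at hc
      obtain ⟨z, hz1, hz2⟩ := good_step hs heta heps he t1 t2 t3 t4 R n1 n2 F hF x hc
      refine ⟨⟨insert z F, ?_⟩, Finset.subset_insert _ _, z, Finset.mem_insert_self _ _, hz1⟩
      intro p hp q hq hpq
      rw [Finset.mem_insert] at hp hq
      rcases hp with rfl | hp
      · rcases hq with rfl | hq
        · exact absurd rfl hpq
        · exact ⟨(hz2 q hq).1, (hz2 q hq).2.1⟩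
      · rcases hq with rfl | hq
        · refine ⟨?_, (hz2 p hp).2.2⟩
          rw [norm_sub_rev]
          exact (hz2 p hp).1
        · exact hF p hp q hq hpq
  choose nx hnx1 hnx2 using step
  let u : ℕ → {F : Finset X // Good tau d (Th - eps - e) F} := fun n =>
    Nat.rec ⟨∅, by intro p hp; simp at hp⟩ (fun k F => nx (TopologicalSpace.denseSeq X k) F) n
  have hu : ∀ k, u (k + 1) = nx (TopologicalSpace.denseSeq X k) (u k) := fun k => rfl
  have hmono : Monotone fun k => (u k).1 := by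
    apply monotone_nat_of_le_succ
    intro k
    show (u k).1 ⊆ (u (k+1)).1
    rw [hu]
    exact hnx1 _ _
  have hdense : ∀ k, ∃ p ∈ (u (k+1)).1, ‖TopologicalSpace.denseSeq X k - p‖ ≤ rho := by
    intro k
    rw [hu]
    exact hnx2 _ _
  -- the union
  obtain ⟨rho', h1, h2⟩ := exists_between hrd
  refine ⟨2 / d * rho', ?_, {x | ∃ k, ∃ p ∈ (u k).1, x = (2 / d) • p}, ?_, ?_⟩
  · rw [div_mul_eq_mul_div, div_lt_iff₀ hd0]
    linarith
  · rintro x ⟨k, p, hp, rfl⟩ y ⟨l, q, hq, rfl⟩ hxy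
    have hpq : p ≠ q := fun h => hxy (by rw [h])
    have hp' : p ∈ (u (max k l)).1 := hmono (le_max_left _ _) hp
    have hq' : q ∈ (u (max k l)).1 := hmono (le_max_right _ _) hq
    have := ((u (max k l)).2 p hp' q hq' hpq).1
    rw [← smul_sub, norm_smul, Real.norm_eq_abs, abs_of_pos (by positivity),
      div_mul_eq_mul_div, le_div_iff₀ hd0]
    linarith
  · intro x
    obtain ⟨k, hk⟩ := (TopologicalSpace.denseRange_denseSeq X).exists_dist_lt ((d / 2) • x)
      (sub_pos.2 h1)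
    obtain ⟨p, hp, hpk⟩ := hdense k
    refine ⟨(2 / d) • p, ⟨k + 1, p, hp, rfl⟩, ?_⟩
    have e1 : x - (2 / d) • p = (2 / d) • ((d / 2) • x - p) := by
      rw [smul_sub, smul_smul]
      congr 1
      rw [div_mul_div_comm, mul_comm 2 d, div_self (by positivity), one_smul]
    rw [e1, norm_smul, Real.norm_eq_abs, abs_of_pos (by positivity)]
    apply mul_le_mul_of_nonneg_left _ (by positivity)
    rw [dist_eq_norm] at hk
    have := norm_sub_le_norm_sub_add_norm_sub ((d / 2) • x) (TopologicalSpace.denseSeq X k) p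
    linarith

end Pool.Agent.R571.PC
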