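import Pool.Agent.R571.PC.Lists
import Pool.Agent.R571.PC.Packing

/-! Some scale has a gain. -/

namespace Pool.Agent.R571.PC

open Filter Topology

/-- Hypothesis (H): sign sums of long finite sequences of vectors of norm at least one
are large for a suitable choice of signs. -/
def SignSumsUnbounded (X : Type*) [NormedAddCommGroup X] [NormedSpace ℝ X] : Prop :=
  ∀ C : ℝ, ∃ m : ℕ, ∀ v : Fin m → X, (∀ i, 1 ≤ ‖v i‖) →
    ∃ θ : Fin m → ℝ, (∀ i, θ i = 1 ∨ θ i = -1) ∧ C < ‖∑ i, θ i • v i‖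

variable {X : Type*} [NormedAddCommGroup X] [NormedSpace ℝ X]

lemma subset_sums (h : SignSumsUnbounded X) (C : ℝ) : ∃ m0 : ℕ, ∀ w : ℕ → X,
    (∀ i < m0, 1 ≤ ‖w i‖) → ∃ I ⊆ Finset.range m0, C < ‖∑ i ∈ I, w i‖ := by
  classical
  obtain ⟨m, hm⟩ := h (2 * C)
  refine ⟨m, fun w hw => ?_⟩
  obtain ⟨θ, hθ, hC⟩ := hm (fun i => w i) (fun i => hw i i.2)
  by_contra hcon
  push Not at hcon
  have hmap : ∀ P : Finset (Fin m), ‖∑ i ∈ P, w i‖ ≤ C := by
    intro P
    have h1 : P.map Fin.valEmbedding ⊆ Finset.range m := by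
      intro i hi
      rw [Finset.mem_map] at hi
      obtain ⟨j, -, rfl⟩ := hi
      exact Finset.mem_range.2 j.2
    have := hcon _ h1
    rwa [Finset.sum_map] at this
  have hsum : ∑ i, θ i • w i = ∑ i ∈ Finset.univ.filter (fun i => θ i = 1), w i -
      ∑ i ∈ Finset.univ.filter (fun i => ¬ θ i = 1), w i := by
    rw [← Finset.sum_filter_add_sum_filter_not Finset.univ (fun i => θ i = 1), sub_eq_add_neg,
      ← Finset.sum_neg_distrib]
    congr 1
    · refine Finset.sum_congr rfl fun i hi => ?_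
      rw [(Finset.mem_filter.1 hi).2, one_smul]
    · refine Finset.sum_congr rfl fun i hi => ?_
      rw [(hθ i).resolve_left (Finset.mem_filter.1 hi).2, neg_smul, one_smul]
  rw [hsum] at hC
  have := norm_sub_le (∑ i ∈ Finset.univ.filter (fun i => θ i = 1), w i)
    (∑ i ∈ Finset.univ.filter (fun i => ¬ θ i = 1), w i)
  have h1 := hmap (Finset.univ.filter (fun i => θ i = 1))
  have h2 := hmap (Finset.univ.filter (fun i => ¬ θ i = 1))
  linarith

variable {s : ℕ → X}

lemma iter_lip (hs : ∀ n, ‖s n‖ ≤ 1) (l : List ℝ) (j : ℕ) : Lip ((op s l)^[j] (N : X → ℝ)) := by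
  induction j with
  | zero => exact Lip_N
  | succ j ih => rw [Function.iterate_succ_apply']; exact ih.op hs l

lemma iter_mid (hs : ∀ n, ‖s n‖ ≤ 1) (l : List ℝ) (j : ℕ) : Mid ((op s l)^[j] (N : X → ℝ)) := by
  induction j with
  | zero => exact Mid_N
  | succ j ih => rw [Function.iterate_succ_apply']; exact Mid.op hs (iter_lip hs l j) ih l

lemma multi (hs : ∀ n, ‖s n‖ ≤ 1) (l : List ℝ) (k : ℕ) : ∀ (J : ℕ) (κ : ℝ), 0 < κ →
    ∃ w : ℕ → X, ∀ I ⊆ Finset.range k, ∀ j ≤ J,
      |(op s l)^[j] N (∑ i ∈ I, w i) - (op s l)^[j + I.card] (N : X → ℝ) 0| ≤ κ := by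
  classical
  induction k with
  | zero =>
    intro J κ hκ
    refine ⟨fun _ => 0, fun I hI j hj => ?_⟩
    have : I = ∅ := by simpa using hI
    subst this
    simp [hκ.le]
  | succ k ih =>
    intro J κ hκ
    obtain ⟨w, hw⟩ := ih (J + 1) (κ / 2) (by linarith)
    obtain ⟨v, hv⟩ := realize hs (Finset.range (J + 1)) (fun j => (op s l)^[j] (N : X → ℝ))
      (iter_lip hs l) l ((Finset.range k).powerset.image (fun I => ∑ i ∈ I, w i)) (κ / 2)
      (by linarith)
    refine ⟨Function.update w k v, fun I hI j hj => ?_⟩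
    by_cases hk : k ∈ I
    · have hI' : I.erase k ⊆ Finset.range k := by
        intro i hi
        have h1 := Finset.mem_range.1 (hI (Finset.mem_of_mem_erase hi))
        have h2 := Finset.ne_of_mem_erase hi
        rw [Finset.mem_range]
        omega
      have hsum : ∑ i ∈ I, Function.update w k v i = ∑ i ∈ I.erase k, w i + v := by
        rw [← Finset.sum_erase_add _ _ hk, Function.update_self]
        congr 1
        refine Finset.sum_congr rfl fun i hi => ?_
        rw [Function.update_of_ne (Finset.ne_of_mem_erase hi)]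
      have hcard : j + I.card = j + 1 + (I.erase k).card := by
        have := Finset.card_erase_add_one hk
        omega
      rw [hsum, hcard]
      have h1 : |(op s l)^[j] N (∑ i ∈ I.erase k, w i + v) -
          (op s l)^[j + 1] N (∑ i ∈ I.erase k, w i)| ≤ κ / 2 := by
        rw [Function.iterate_succ_apply']
        exact hv j (Finset.mem_range.2 (by omega)) (∑ i ∈ I.erase k, w i)
          (Finset.mem_image.2 ⟨I.erase k, Finset.mem_powerset.2 hI', rfl⟩)
      have h2 := hw (I.erase k) hI' (j + 1) (by omega)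
      have := abs_sub_le ((op s l)^[j] N (∑ i ∈ I.erase k, w i + v))
        ((op s l)^[j + 1] N (∑ i ∈ I.erase k, w i))
        ((op s l)^[j + 1 + (I.erase k).card] (N : X → ℝ) 0)
      linarith
    · have hI' : I ⊆ Finset.range k := by
        intro i hi
        have h1 := Finset.mem_range.1 (hI hi)
        have h2 : i ≠ k := fun h => hk (h ▸ hi)
        rw [Finset.mem_range]
        omega
      have hsum : ∑ i ∈ I, Function.update w k v i = ∑ i ∈ I, w i := by
        refine Finset.sum_congr rfl fun i hi => ?_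
        have hik : i ≠ k := fun h => hk (by rw [← h]; exact hi)
        rw [Function.update_of_ne hik]
      rw [hsum]
      have := hw I hI' j (by omega)
      linarith

lemma iter_V (j : ℕ) : (op s [1, -1])^[j] (N : X → ℝ) = op s (V j 1) N := by
  induction j with
  | zero => rfl
  | succ j ih => rw [Function.iterate_succ_apply', ih]; rfl

lemma lam_one (hs : ∀ n, ‖s n‖ ≤ 1) {c : ℝ} (hc : ∀ m n, m ≠ n → c ≤ ‖s m - s n‖) :
    c ≤ op s (V 1 1) N 0 := by
  have h1 : Lip (A s (-1) (N : X → ℝ)) := Lip_N.A hs (-1)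
  have h2 := tendsto_A hs h1 1 0
  refine ge_of_tendsto' h2 fun n => ?_
  have h3 := tendsto_A hs (Lip_N (X := X)) (-1) (0 + (1:ℝ) • s n)
  refine ge_of_tendsto h3 ?_
  have h4 : ∀ᶠ m in (hyperfilter ℕ : Filter ℕ), m ≠ n :=
    hyperfilter_le_cofinite (eventually_cofinite_ne n)
  filter_upwards [h4] with m hm
  have := hc n m (Ne.symm hm)
  have e : (0 + (1:ℝ) • s n + (-1:ℝ) • s m) = s n - s m := by module
  rw [e]
  exact this

lemma lam_unbounded (h : SignSumsUnbounded X) (hs : ∀ n, ‖s n‖ ≤ 1) {c : ℝ} (hc0 : 0 < c)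
    (hc : ∀ m n, m ≠ n → c ≤ ‖s m - s n‖) (B : ℝ) : ∃ L, B ≤ op s (V L 1) (N : X → ℝ) 0 := by
  by_contra hcon
  push Not at hcon
  obtain ⟨m0, hm0⟩ := subset_sums h ((2 / c) * (B + c / 2))
  obtain ⟨w, hw⟩ := multi hs [1, -1] m0 0 (c / 2) (by linarith)
  have hw1 : ∀ i < m0, c / 2 ≤ ‖w i‖ := by
    intro i hi
    have h1 := (abs_le.1 (hw {i} (by simpa using hi) 0 le_rfl)).1
    rw [Finset.sum_singleton, Finset.card_singleton, zero_add, iter_V 1] at h1
    have h2 := lam_one hs hc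
    have h3 : (op s [1, -1])^[0] N (w i) = ‖w i‖ := rfl
    rw [h3] at h1
    linarith
  have hw2 : ∀ I ⊆ Finset.range m0, ‖∑ i ∈ I, w i‖ ≤ B + c / 2 := by
    intro I hI
    have h1 := (abs_le.1 (hw I hI 0 le_rfl)).2
    rw [zero_add, iter_V I.card] at h1
    have h3 : (op s [1, -1])^[0] N (∑ i ∈ I, w i) = ‖∑ i ∈ I, w i‖ := rfl
    rw [h3] at h1
    have := hcon I.card
    linarith
  obtain ⟨I, hI, hI2⟩ := hm0 (fun i => (2 / c) • w i) (by
    intro i hi
    rw [norm_smul, Real.norm_eq_abs, abs_of_pos (by positivity)]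
    have := hw1 i hi
    rw [div_mul_eq_mul_div, le_div_iff₀ hc0]
    linarith)
  rw [← Finset.smul_sum, norm_smul, Real.norm_eq_abs, abs_of_pos (by positivity)] at hI2
  have h5 : (2 / c) * ‖∑ i ∈ I, w i‖ ≤ (2 / c) * (B + c / 2) :=
    mul_le_mul_of_nonneg_left (hw2 I hI) (by positivity)
  linarith

lemma W_ge_V (hs : ∀ n, ‖s n‖ ≤ 1) (L m : ℕ) {F : X → ℝ} (hF : Lip F) (hM : Mid F) (a : ℝ)
    (x : X) : op s (V L a) F x ≤ op s (W L m a) F x + (3/2) ^ m * |a| := by
  induction m generalizing x with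
  | zero =>
    have := abs_nonneg a
    simpa [W] using this
  | succ m ih =>
    have h1 := W_ge hs L m (hF.op hs (W L m a)) (Mid.op hs hF hM (W L m a)) (a / 2) x
    rw [← op_append, abs_div, abs_two] at h1
    have h2 : op s (W L (m + 1) a) F x = op s (W L m (a / 2) ++ W L m a) F x := rfl
    rw [h2, pow_succ]
    have := ih x
    linarith

lemma tau_ge_iter (hs : ∀ n, ‖s n‖ ≤ 1) (L m : ℕ) (x : X) :
    (op s (V L (1/2)))^[m] N x ≤ tau s L m x + (3/2) ^ m := by
  induction m generalizing x with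
  | zero =>
    have := W_ge hs L 0 Lip_N Mid_N 1 x
    simpa [tau] using this
  | succ m ih =>
    rw [Function.iterate_succ_apply']
    have h1 := op_mono hs (iter_lip hs (V L (1/2)) m) (tau_lip hs L m) (V L (1/2)) _ ih x
    have h2 := W_ge_V hs L m (tau_lip hs L m) (tau_mid hs L m) (1/2) x
    have h3 : op s (W L m (1/2)) (tau s L m) x = tau s L (m + 1) x := by
      unfold tau
      rw [← op_append]
      rfl
    rw [h3, abs_of_pos (by norm_num : (0:ℝ) < 1/2)] at h2
    rw [pow_succ]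
    linarith

lemma g_ge (hs : ∀ n, ‖s n‖ ≤ 1) (L m : ℕ) :
    op s (V L 1) (N : X → ℝ) 0 - ((3/2) ^ m - 1) ≤ tau s L m 0 := by
  induction m with
  | zero => simp [tau, W]
  | succ m ih =>
    have h1 := W_ge hs L m (tau_lip hs L m) (tau_mid hs L m) (1/2) 0
    have h3 : op s (W L m (1/2)) (tau s L m) 0 = tau s L (m + 1) 0 := by
      unfold tau
      rw [← op_append]
      rfl
    rw [h3, abs_of_pos (by norm_num : (0:ℝ) < 1/2)] at h1
    rw [pow_succ]
    linarith

lemma iter_le (hs : ∀ n, ‖s n‖ ≤ 1) (L k j : ℕ) :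
    (op s (V L (1/2)))^[k] (N : X → ℝ) 0 ≤ (op s (V L (1/2)))^[k + j] N 0 + j / 2 := by
  induction j with
  | zero => simp
  | succ j ih =>
    have h1 := V_ge hs L (iter_lip hs (V L (1/2)) (k + j)) (iter_mid hs (V L (1/2)) (k + j))
      (1/2) (0 : X)
    rw [← Function.iterate_succ_apply' (op s (V L (1/2))),
      abs_of_pos (by norm_num : (0:ℝ) < 1/2)] at h1
    push_cast
    have e : k + (j + 1) = k + j + 1 := by ring
    rw [e]
    linarith

lemma iter_one (hs : ∀ n, ‖s n‖ ≤ 1) (L : ℕ) :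
    (op s (V L (1/2)))^[1] (N : X → ℝ) 0 = op s (V L 1) N 0 / 2 := by
  have h := op_scale hs (Lip_N (X := X)) Lip_N (fun x => by
    unfold N
    rw [norm_smul, Real.norm_eq_abs, abs_of_pos (by norm_num : (0:ℝ) < 1/2)]
    ring) (V L 1) 0
  rw [V_map_half, smul_zero] at h
  exact h

/-- existence of a scale with gain -/
lemma gain (h : SignSumsUnbounded X) (hs : ∀ n, ‖s n‖ ≤ 1) {c : ℝ} (hc0 : 0 < c)
    (hc : ∀ m n, m ≠ n → c ≤ ‖s m - s n‖) :
    ∃ (L m : ℕ) (dl : ℝ), 8 * (2 * (3/2) ^ m) ≤ dl * tau s L m 0 ∧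
      (1 + dl) * tau s L m 0 ≤ tau s L (m + 1) 0 := by
  obtain ⟨m0, hm0⟩ := subset_sums h 13
  have hm1 : 1 ≤ m0 := by
    by_contra hcon
    have h0 : m0 = 0 := by omega
    subst h0
    obtain ⟨I, hI, hI2⟩ := hm0 (fun _ => 0) (by intro i hi; omega)
    have : I = ∅ := by simpa using hI
    subst this
    simp at hI2
    linarith
  have hm1r : (1:ℝ) ≤ m0 := by exact_mod_cast hm1
  obtain ⟨L, hL⟩ := lam_unbounded h hs hc0 hc (64 * m0 * (3/2) ^ m0 + m0)
  set lam := op s (V L 1) (N : X → ℝ) 0 with hlam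
  have hpow1 : (1:ℝ) ≤ (3/2) ^ m0 := one_le_pow₀ (by norm_num)
  have hpowm : ∀ m ≤ m0, ((3:ℝ)/2) ^ m ≤ (3/2) ^ m0 := fun m hm =>
    pow_le_pow_right₀ (by norm_num) hm
  have hbig : 64 * (3/2) ^ m0 ≤ lam := by
    have : (64:ℝ) * (3/2) ^ m0 ≤ 64 * m0 * (3/2) ^ m0 := by
      have h0 : (0:ℝ) ≤ (3/2) ^ m0 := by positivity
      nlinarith
    linarith
  have hg : ∀ m ≤ m0, lam / 2 ≤ tau s L m 0 := by
    intro m hm
    have h1 := g_ge hs L m
    have h2 := hpowm m hm
    rw [← hlam] at h1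
    linarith
  by_contra hcon
  push Not at hcon
  have hdl : ∀ m ≤ m0, 8 * (2 * (3/2) ^ m) ≤ (1 / (2 * m0)) * tau s L m 0 := by
    intro m hm
    have h1 := hg m hm
    have h2 := hpowm m hm
    rw [one_div_mul_eq_div, le_div_iff₀ (by positivity)]
    have h3 : (3/2:ℝ) ^ m * m0 ≤ (3/2) ^ m0 * m0 :=
      mul_le_mul_of_nonneg_right h2 (by positivity)
    nlinarith
  have hup : ∀ m ≤ m0, tau s L m 0 ≤ (1 + m / m0) * lam := by
    intro m
    induction m with
    | zero =>
      intro _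
      simp [tau, W, hlam]
    | succ m ih =>
      intro hm
      have h1 := ih (by omega)
      have h2 := hcon L m (1 / (2 * m0)) (hdl m (by omega))
      have h3 : (m:ℝ) / m0 ≤ 1 := by
        rw [div_le_one (by positivity)]
        exact_mod_cast (by omega : m ≤ m0)
      have hlam0 : 0 ≤ lam := by
        have : (0:ℝ) ≤ (3/2) ^ m0 := by positivity
        linarith
      have h4 : tau s L m 0 ≤ 2 * lam := by nlinarith
      have h5 : (1 / (2 * (m0:ℝ))) * tau s L m 0 ≤ (1 / (2 * m0)) * (2 * lam) :=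
        mul_le_mul_of_nonneg_left h4 (by positivity)
      have h6 : (1 / (2 * (m0:ℝ))) * (2 * lam) = 1 / m0 * lam := by
        field_simp
      push_cast
      rw [add_div]
      nlinarith
  have hup2 : tau s L m0 0 ≤ 2 * lam := by
    have := hup m0 le_rfl
    rw [div_self (by positivity)] at this
    linarith
  obtain ⟨w, hw⟩ := multi hs (V L (1/2)) m0 0 (lam / 4) (by
    have : (0:ℝ) < (3/2) ^ m0 := by positivity
    linarith)
  have hlam0 : 0 < lam := by
    have : (0:ℝ) < (3/2) ^ m0 := by positivity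
    linarith
  have hw1 : ∀ i < m0, lam / 4 ≤ ‖w i‖ := by
    intro i hi
    have h1 := (abs_le.1 (hw {i} (by simpa using hi) 0 le_rfl)).1
    rw [Finset.sum_singleton, Finset.card_singleton, zero_add, iter_one hs, ← hlam] at h1
    have h3 : (op s (V L (1/2)))^[0] N (w i) = ‖w i‖ := rfl
    rw [h3] at h1
    linarith
  have hw2 : ∀ I ⊆ Finset.range m0, ‖∑ i ∈ I, w i‖ ≤ 13 / 4 * lam := by
    intro I hI
    have h1 := (abs_le.1 (hw I hI 0 le_rfl)).2
    rw [zero_add] at h1
    have h3 : (op s (V L (1/2)))^[0] N (∑ i ∈ I, w i) = ‖∑ i ∈ I, w i‖ := rfl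
    rw [h3] at h1
    have hcard : I.card ≤ m0 := by simpa using Finset.card_le_card hI
    have h4 := iter_le hs L I.card (m0 - I.card)
    rw [Nat.add_sub_cancel' hcard] at h4
    have h5 := tau_ge_iter hs L m0 (0 : X)
    have h6 : ((m0 - I.card : ℕ) : ℝ) ≤ m0 := by exact_mod_cast Nat.sub_le _ _
    have h7 : (3/2:ℝ) ^ m0 ≤ 64 * m0 * (3/2) ^ m0 := by
      have h0 : (0:ℝ) ≤ (3/2) ^ m0 := by positivity
      nlinarith
    linarith
  obtain ⟨I, hI, hI2⟩ := hm0 (fun i => (4 / lam) • w i) (by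
    intro i hi
    rw [norm_smul, Real.norm_eq_abs, abs_of_pos (by positivity)]
    have := hw1 i hi
    rw [div_mul_eq_mul_div, le_div_iff₀ hlam0]
    linarith)
  rw [← Finset.smul_sum, norm_smul, Real.norm_eq_abs, abs_of_pos (by positivity)] at hI2
  have h5 : (4 / lam) * ‖∑ i ∈ I, w i‖ ≤ (4 / lam) * (13 / 4 * lam) :=
    mul_le_mul_of_nonneg_left (hw2 I hI) (by positivity)
  have h6 : (4 / lam) * (13 / 4 * lam) = 13 := by
    field_simp
  linarith

/-- infinite-dimensional case -/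
theorem infinite_dim [TopologicalSpace.SeparableSpace X] (h : SignSumsUnbounded X)
    (hdim : ¬ FiniteDimensional ℝ X) :
    ∃ r : ℝ, r < 2 ∧ ∃ P : Set X, (∀ x ∈ P, ∀ y ∈ P, x ≠ y → 2 ≤ ‖x - y‖) ∧
      ∀ x, ∃ p ∈ P, ‖x - p‖ ≤ r := by
  obtain ⟨f, hf1, hf2⟩ := exists_seq_norm_le_one_le_norm_sub' (𝕜 := ℝ) (E := X) (c := 2)
    (by norm_num) (R := 3) (by norm_num) hdim
  have hs : ∀ n, ‖(fun n => (1/3:ℝ) • f n) n‖ ≤ 1 := by
    intro n
    simp only [norm_smul, Real.norm_eq_abs]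
    rw [abs_of_pos (by norm_num)]
    linarith [hf1 n]
  have hc : ∀ m n, m ≠ n → (1/3:ℝ) ≤ ‖(fun n => (1/3:ℝ) • f n) m - (fun n => (1/3:ℝ) • f n) n‖ := by
    intro m n hmn
    simp only [← smul_sub, norm_smul, Real.norm_eq_abs]
    rw [abs_of_pos (by norm_num)]
    have : 1 ≤ ‖f m - f n‖ := hf2 hmn
    linarith
  obtain ⟨L, m, dl, h1, h2⟩ := gain h hs (by norm_num : (0:ℝ) < 1/3) hc
  set s : ℕ → X := fun n => (1/3:ℝ) • f n with hsdef
  have hE : (0:ℝ) < 2 * (3/2) ^ m := by positivity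
  have hg0 : 0 ≤ tau s L m 0 := by
    obtain ⟨v, hv, -⟩ := tau_realize hs L m 1 one_pos ∅
    by_contra hneg
    push Not at hneg
    obtain ⟨v, hv, -⟩ := tau_realize hs L m (-(tau s L m 0) / 2) (by linarith) ∅
    have := norm_nonneg v
    linarith
  refine packing (tau s L m) (tau s L m 0) (dl * tau s L m 0 / 8) ((2 * (3/2) ^ m) / 4)
    (2 * (3/2) ^ m) (tau s L (m + 1) 0 - (2 * (3/2) ^ (m + 1)) / 2) hg0 (by linarith)
    (by linarith) hE.le (tau_lip hs L m) (tau_mid hs L m) (tau_neg hs L m) (tau_ge hs L m)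
    (tau_realize hs L m _ (by linarith)) (by linarith) ?_
  rw [pow_succ]
  linarith

end Pool.Agent.R571.PC
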