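import Pool.Agent.R571.PC.Op

/-! The words `V L a` and `W L m a` and the corresponding operators. -/

namespace Pool.Agent.R571.PC

open Filter Topology

variable {X : Type*} [NormedAddCommGroup X] [NormedSpace ℝ X]

variable {s : ℕ → X}

/-- `V L a = [a, -a, a, -a, ...]` (`L` pairs). -/
def V : ℕ → ℝ → List ℝ
  | 0, _ => []
  | L + 1, a => a :: -a :: V L a

lemma V_succ' (L : ℕ) (a : ℝ) : V (L + 1) a = V L a ++ [a, -a] := by
  induction L with
  | zero => rfl
  | succ L ih =>
    calc V (L + 1 + 1) a = a :: -a :: V (L + 1) a := rfl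
      _ = a :: -a :: (V L a ++ [a, -a]) := by rw [ih]
      _ = V (L + 1) a ++ [a, -a] := rfl

lemma V_neg (L : ℕ) (a : ℝ) : V (L + 1) (-a) = -a :: (V L a ++ [a]) := by
  induction L with
  | zero => simp [V]
  | succ L ih =>
    have h1 : V (L + 1 + 1) (-a) = -a :: - -a :: V (L + 1) (-a) := rfl
    rw [h1, ih, neg_neg]
    rfl

lemma V_map_neg (L : ℕ) (a : ℝ) : (V L a).map (fun a => -a) = V L (-a) := by
  induction L with
  | zero => rfl
  | succ L ih => simp [V, ih]

lemma V_map_half (L : ℕ) (a : ℝ) : (V L a).map (fun a => a / 2) = V L (a / 2) := by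
  induction L with
  | zero => rfl
  | succ L ih => simp [V, ih, neg_div]

/-- `W 0 a = V a`, `W (m+1) a = W m (a/2) ++ W m a`. -/
noncomputable def W (L : ℕ) : ℕ → ℝ → List ℝ
  | 0, a => V L a
  | m + 1, a => W L m (a / 2) ++ W L m a

lemma W_map_neg (L m : ℕ) (a : ℝ) : (W L m a).map (fun a => -a) = W L m (-a) := by
  induction m generalizing a with
  | zero => exact V_map_neg L a
  | succ m ih => simp only [W, List.map_append, ih, neg_div]

lemma W_map_half (L m : ℕ) (a : ℝ) : (W L m a).map (fun a => a / 2) = W L m (a / 2) := by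
  induction m generalizing a with
  | zero => exact V_map_half L a
  | succ m ih => simp only [W, List.map_append, ih]

lemma flip_V (hs : ∀ n, ‖s n‖ ≤ 1) {F : X → ℝ} (hF : Lip F) (L : ℕ) (a : ℝ) (x : X) :
    |op s (V L (-a)) F x - op s (V L a) F x| ≤ 2 * |a| := by
  cases L with
  | zero => simp [V]
  | succ L =>
    rw [V_neg, V_succ', op_cons, op_append, op_append]
    have h1 : Lip (op s [a] F) := hF.op hs [a]
    have h2 : Lip (op s [a, -a] F) := hF.op hs [a, -a]
    have h3 := A_near hs (h1.op hs (V L a)) (-a) x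
    rw [abs_neg] at h3
    have h4 : ∀ y, |op s [a] F y - op s [a, -a] F y| ≤ |a| := by
      intro y
      have : ∀ z, |F z - A s (-a) F z| ≤ |a| := by
        intro z
        have := A_near hs hF (-a) z
        rwa [abs_neg, abs_sub_comm] at this
      have h5 := op_near hs hF (hF.A hs (-a)) [a] |a| this y
      exact h5
    have h6 := op_near hs h1 h2 (V L a) |a| h4 x
    have := abs_sub_le (A s (-a) (op s (V L a) (op s [a] F)) x)
      (op s (V L a) (op s [a] F) x) (op s (V L a) (op s [a, -a] F) x)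
    linarith

lemma flip_W (hs : ∀ n, ‖s n‖ ≤ 1) (L m : ℕ) {F : X → ℝ} (hF : Lip F) (a : ℝ) (x : X) :
    |op s (W L m (-a)) F x - op s (W L m a) F x| ≤ 2 * (3/2) ^ m * |a| := by
  induction m generalizing a x F with
  | zero => simpa [W] using flip_V hs hF L a x
  | succ m ih =>
    simp only [W, op_append, neg_div]
    have h1 := ih (hF.op hs (W L m (-a))) (a / 2) x
    have h2 := op_near hs (hF.op hs (W L m (-a))) (hF.op hs (W L m a)) (W L m (a / 2)) _
      (fun y => ih hF a y) x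
    have := abs_sub_le (op s (W L m (-(a / 2))) (op s (W L m (-a)) F) x)
      (op s (W L m (a / 2)) (op s (W L m (-a)) F) x)
      (op s (W L m (a / 2)) (op s (W L m a) F) x)
    rw [abs_div, abs_two] at h1
    rw [pow_succ]
    linarith

/-- (9): on midpoint convex functions the operators `W` almost increase. -/
lemma W_ge (hs : ∀ n, ‖s n‖ ≤ 1) (L m : ℕ) {F : X → ℝ} (hF : Lip F) (hM : Mid F) (a : ℝ)
    (x : X) : F x ≤ op s (W L m a) F x + (3/2) ^ m * |a| := by
  have h1 := op_three (H := F) hs hF hF (fun x y => by have := hM x y; linarith) (W L m a) x x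
  have e1 : (1/2:ℝ) • (x + x) = x := by module
  rw [e1, W_map_neg] at h1
  have h2 := (abs_le.1 (flip_W hs L m hF a x)).2
  linarith

lemma V_ge (hs : ∀ n, ‖s n‖ ≤ 1) (L : ℕ) {F : X → ℝ} (hF : Lip F) (hM : Mid F) (a : ℝ)
    (x : X) : F x ≤ op s (V L a) F x + |a| := by
  have := W_ge hs L 0 hF hM a x
  simpa [W] using this

/-- the norm function -/
def N : X → ℝ := fun x => ‖x‖

lemma Lip_N : Lip (N : X → ℝ) := fun x y => abs_norm_sub_norm_le x y

lemma Mid_N : Mid (N : X → ℝ) := by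
  intro x y
  unfold N
  rw [norm_smul, Real.norm_eq_abs, abs_of_pos (by norm_num : (0:ℝ) < 1/2)]
  have := norm_add_le x y
  linarith

/-- `tau = op W(m,1) N` -/
noncomputable def tau (s : ℕ → X) (L m : ℕ) : X → ℝ := op s (W L m 1) N

lemma tau_lip (hs : ∀ n, ‖s n‖ ≤ 1) (L m : ℕ) : Lip (tau s L m) := Lip_N.op hs _

lemma tau_mid (hs : ∀ n, ‖s n‖ ≤ 1) (L m : ℕ) : Mid (tau s L m) := Mid.op hs Lip_N Mid_N _

lemma tau_neg (hs : ∀ n, ‖s n‖ ≤ 1) (L m : ℕ) (y : X) :
    |tau s L m (-y) - tau s L m y| ≤ 2 * (3/2) ^ m := by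
  unfold tau
  rw [op_neg (F := N) (G := N) (fun y => norm_neg y), W_map_neg]
  simpa using flip_W hs L m Lip_N 1 y

lemma tau_ge (hs : ∀ n, ‖s n‖ ≤ 1) (L m : ℕ) (y : X) :
    ‖y‖ - (2 * (3/2) ^ m) / 2 ≤ tau s L m y := by
  have := W_ge hs L m Lip_N Mid_N 1 y
  rw [abs_one] at this
  have h2 : N y = ‖y‖ := rfl
  rw [h2] at this
  unfold tau
  linarith

lemma tau_half (L m : ℕ) (x : X) :
    op s (W L m 1) (fun y => tau s L m ((1/2:ℝ) • y)) x = tau s L (m + 1) ((1/2:ℝ) • x) := by
  rw [op_half (F := tau s L m) (fun _ => rfl), W_map_half]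
  unfold tau
  rw [← op_append]
  rfl

lemma tau_zero_le (hs : ∀ n, ‖s n‖ ≤ 1) (L m : ℕ) (z : X) :
    tau s L m 0 - (2 * (3/2) ^ m) / 2 ≤ tau s L m z := by
  have h1 := tau_mid hs L m z (-z)
  have e : (1/2:ℝ) • (z + -z) = 0 := by simp
  rw [e] at h1
  have h2 := (abs_le.1 (tau_neg hs L m z)).2
  linarith

lemma tau_realize (hs : ∀ n, ‖s n‖ ≤ 1) (L m : ℕ) (eps : ℝ) (heps : 0 < eps) (Y : Finset X) :
    ∃ v : X, ‖v‖ ≤ tau s L m 0 + eps ∧
      ∀ y ∈ Y, tau s L m y - eps ≤ ‖y + v‖ ∧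
        (tau s L (m+1) 0 - (2 * (3/2) ^ (m+1)) / 2) - eps ≤ tau s L m ((1/2:ℝ) • (y + v)) := by
  classical
  have hG : Lip (fun y : X => tau s L m ((1/2:ℝ) • y)) := by
    intro x y
    refine (tau_lip hs L m _ _).trans ?_
    rw [← smul_sub, norm_smul, Real.norm_eq_abs, abs_of_pos (by norm_num : (0:ℝ) < 1/2)]
    have := norm_nonneg (x - y)
    linarith
  obtain ⟨v, hv⟩ := realize hs (Finset.univ : Finset Bool)
    (fun b => if b then (N : X → ℝ) else fun y : X => tau s L m ((1/2:ℝ) • y))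
    (by intro b; cases b <;> [exact hG; exact Lip_N]) (W L m 1) (insert 0 Y) eps heps
  refine ⟨v, ?_, fun y hy => ⟨?_, ?_⟩⟩
  · have h := (abs_le.1 (hv true (Finset.mem_univ _) 0 (Finset.mem_insert_self _ _))).2
    simp only [if_true, zero_add] at h
    have h2 : N v = ‖v‖ := rfl
    rw [h2] at h
    unfold tau
    linarith
  · have h := (abs_le.1 (hv true (Finset.mem_univ _) y (Finset.mem_insert_of_mem hy))).1
    simp only [if_true] at h
    have h2 : N (y + v) = ‖y + v‖ := rfl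
    rw [h2] at h
    unfold tau
    linarith
  · have h := (abs_le.1 (hv false (Finset.mem_univ _) y (Finset.mem_insert_of_mem hy))).1
    simp only [Bool.false_eq_true, if_false] at h
    rw [tau_half] at h
    have h3 := tau_zero_le hs L (m+1) ((1/2:ℝ) • y)
    linarith

end Pool.Agent.R571.PC
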