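import Mathlib

/-! Ultrafilter translation-average operators on Lipschitz functions. -/

namespace Pool.Agent.R571.PC

open Filter Topology

variable {X : Type*} [NormedAddCommGroup X] [NormedSpace ℝ X]

/-- `1`-Lipschitz real functions. -/
def Lip (F : X → ℝ) : Prop := ∀ x y, |F x - F y| ≤ ‖x - y‖

/-- midpoint convexity -/
def Mid (F : X → ℝ) : Prop := ∀ x y, F ((1/2:ℝ) • (x + y)) ≤ (F x + F y) / 2

/-- The limit along a fixed nonprincipal ultrafilter of `F (x + a • s n)`. -/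
noncomputable def A (s : ℕ → X) (a : ℝ) (F : X → ℝ) (x : X) : ℝ :=
  limUnder (hyperfilter ℕ : Filter ℕ) (fun n => F (x + a • s n))

variable {s : ℕ → X}

lemma tendsto_A (hs : ∀ n, ‖s n‖ ≤ 1) {F : X → ℝ} (hF : Lip F) (a : ℝ) (x : X) :
    Tendsto (fun n => F (x + a • s n)) (hyperfilter ℕ : Filter ℕ) (𝓝 (A s a F x)) := by
  apply tendsto_nhds_limUnder
  have hmem : ∀ n, F (x + a • s n) ∈ Set.Icc (F x - |a|) (F x + |a|) := by
    intro n
    have h1 := hF (x + a • s n) x
    have h2 : ‖x + a • s n - x‖ ≤ |a| := by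
      rw [add_sub_cancel_left, norm_smul, Real.norm_eq_abs]
      have := hs n
      have := abs_nonneg a
      nlinarith
    have h3 := abs_le.1 (h1.trans h2)
    constructor <;> linarith [h3.1, h3.2]
  obtain ⟨y, -, hy⟩ := (isCompact_Icc (a := F x - |a|) (b := F x + |a|)).ultrafilter_le_nhds
    ((hyperfilter ℕ).map (fun n => F (x + a • s n))) (by
      rw [le_principal_iff]
      exact Ultrafilter.mem_map.2 (Filter.univ_mem' hmem))
  exact ⟨y, hy⟩

lemma Lip.A (hs : ∀ n, ‖s n‖ ≤ 1) {F : X → ℝ} (hF : Lip F) (a : ℝ) : Lip (A s a F) := by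
  intro x y
  have h := ((tendsto_A hs hF a x).sub (tendsto_A hs hF a y)).abs
  refine le_of_tendsto' h fun n => ?_
  have := hF (x + a • s n) (y + a • s n)
  simpa using this

lemma A_mono (hs : ∀ n, ‖s n‖ ≤ 1) {F G : X → ℝ} (hF : Lip F) (hG : Lip G) (a k : ℝ)
    (h : ∀ x, F x ≤ G x + k) (x : X) : A s a F x ≤ A s a G x + k :=
  le_of_tendsto_of_tendsto' (tendsto_A hs hF a x) ((tendsto_A hs hG a x).add_const k)
    fun _ => h _

lemma A_near (hs : ∀ n, ‖s n‖ ≤ 1) {F : X → ℝ} (hF : Lip F) (a : ℝ) (x : X) :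
    |A s a F x - F x| ≤ |a| := by
  have h := ((tendsto_A hs hF a x).sub_const (F x)).abs
  refine le_of_tendsto' h fun n => ?_
  have h1 := hF (x + a • s n) x
  have h2 : ‖x + a • s n - x‖ ≤ |a| := by
    rw [add_sub_cancel_left, norm_smul, Real.norm_eq_abs]
    have := hs n
    have := abs_nonneg a
    nlinarith
  exact h1.trans h2

lemma Mid.A (hs : ∀ n, ‖s n‖ ≤ 1) {F : X → ℝ} (hF : Lip F) (hM : Mid F) (a : ℝ) :
    Mid (A s a F) := by
  intro x y
  refine le_of_tendsto_of_tendsto' (tendsto_A hs hF a _)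
    (((tendsto_A hs hF a x).add (tendsto_A hs hF a y)).div_const 2) fun n => ?_
  have h := hM (x + a • s n) (y + a • s n)
  have e : (1/2:ℝ) • (x + y) + a • s n = (1/2:ℝ) • (x + a • s n + (y + a • s n)) := by
    module
  rw [e]
  exact h

lemma A_three (hs : ∀ n, ‖s n‖ ≤ 1) {F G H : X → ℝ} (hF : Lip F) (hG : Lip G)
    (h : ∀ x y, 2 * H ((1/2:ℝ) • (x + y)) ≤ F x + G y) (a : ℝ) (x y : X) :
    2 * H ((1/2:ℝ) • (x + y)) ≤ A s a F x + A s (-a) G y := by
  refine ge_of_tendsto' ((tendsto_A hs hF a x).add (tendsto_A hs hG (-a) y)) fun n => ?_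
  have h1 := h (x + a • s n) (y + (-a) • s n)
  have e : (1/2:ℝ) • (x + a • s n + (y + (-a) • s n)) = (1/2:ℝ) • (x + y) := by
    module
  rw [e] at h1
  exact h1

lemma A_neg {F G : X → ℝ} (h : ∀ y, F (-y) = G y) (a : ℝ) (y : X) :
    A s a F (-y) = A s (-a) G y := by
  unfold A
  congr 1
  funext n
  rw [← h]
  congr 1
  module

lemma A_half {F G : X → ℝ} (h : ∀ x, G x = F ((1/2:ℝ) • x)) (a : ℝ) (x : X) :
    A s a G x = A s (a / 2) F ((1/2:ℝ) • x) := by
  unfold A
  congr 1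
  funext n
  rw [h]
  congr 1
  module

lemma A_scale (hs : ∀ n, ‖s n‖ ≤ 1) {F G : X → ℝ} (hF : Lip F) (hG : Lip G)
    (h : ∀ x, F ((1/2:ℝ) • x) = G x / 2) (a : ℝ) (x : X) :
    A s (a / 2) F ((1/2:ℝ) • x) = A s a G x / 2 := by
  refine tendsto_nhds_unique (tendsto_A hs hF (a/2) ((1/2:ℝ) • x)) ?_
  have h1 := (tendsto_A hs hG a x).div_const 2
  refine h1.congr fun n => ?_
  rw [← h]
  congr 1
  module

/-- composition of the operators `A s a` over a list -/
noncomputable def op (s : ℕ → X) (l : List ℝ) (F : X → ℝ) : X → ℝ :=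
  l.foldr (fun a G => A s a G) F

@[simp] lemma op_nil (F : X → ℝ) : op s [] F = F := rfl

@[simp] lemma op_cons (a : ℝ) (l : List ℝ) (F : X → ℝ) :
    op s (a :: l) F = A s a (op s l F) := rfl

lemma op_append (l₁ l₂ : List ℝ) (F : X → ℝ) : op s (l₁ ++ l₂) F = op s l₁ (op s l₂ F) := by
  simp [op, List.foldr_append]

lemma Lip.op (hs : ∀ n, ‖s n‖ ≤ 1) {F : X → ℝ} (hF : Lip F) (l : List ℝ) : Lip (op s l F) := by
  induction l with
  | nil => exact hF
  | cons a l ih => exact ih.A hs a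

lemma Mid.op (hs : ∀ n, ‖s n‖ ≤ 1) {F : X → ℝ} (hF : Lip F) (hM : Mid F) (l : List ℝ) :
    Mid (op s l F) := by
  induction l with
  | nil => exact hM
  | cons a l ih => exact Mid.A hs (hF.op hs l) ih a

lemma op_mono (hs : ∀ n, ‖s n‖ ≤ 1) {F G : X → ℝ} (hF : Lip F) (hG : Lip G) (l : List ℝ) (k : ℝ)
    (h : ∀ x, F x ≤ G x + k) (x : X) : op s l F x ≤ op s l G x + k := by
  induction l generalizing x with
  | nil => exact h x
  | cons a l ih => exact A_mono hs (hF.op hs l) (hG.op hs l) a k ih x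

lemma op_near (hs : ∀ n, ‖s n‖ ≤ 1) {F G : X → ℝ} (hF : Lip F) (hG : Lip G) (l : List ℝ) (k : ℝ)
    (h : ∀ x, |F x - G x| ≤ k) (x : X) : |op s l F x - op s l G x| ≤ k := by
  rw [abs_le]
  have h1 := op_mono hs hF hG l k (fun x => by have := (abs_le.1 (h x)).2; linarith) x
  have h2 := op_mono hs hG hF l k (fun x => by have := (abs_le.1 (h x)).1; linarith) x
  constructor <;> linarith

lemma op_three (hs : ∀ n, ‖s n‖ ≤ 1) {F G H : X → ℝ} (hF : Lip F) (hG : Lip G)
    (h : ∀ x y, 2 * H ((1/2:ℝ) • (x + y)) ≤ F x + G y) (l : List ℝ) (x y : X) :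
    2 * H ((1/2:ℝ) • (x + y)) ≤ op s l F x + op s (l.map (fun a => -a)) G y := by
  induction l generalizing x y with
  | nil => exact h x y
  | cons a l ih =>
    exact A_three hs (hF.op hs l) (hG.op hs _) ih a x y

lemma op_neg {F G : X → ℝ} (h : ∀ y, F (-y) = G y) (l : List ℝ) (y : X) :
    op s l F (-y) = op s (l.map (fun a => -a)) G y := by
  induction l generalizing y with
  | nil => exact h y
  | cons a l ih => exact A_neg ih a y

lemma op_half {F G : X → ℝ} (h : ∀ x, G x = F ((1/2:ℝ) • x)) (l : List ℝ) (x : X) :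
    op s l G x = op s (l.map (fun a => a / 2)) F ((1/2:ℝ) • x) := by
  induction l generalizing x with
  | nil => exact h x
  | cons a l ih => exact A_half ih a x

lemma op_scale (hs : ∀ n, ‖s n‖ ≤ 1) {F G : X → ℝ} (hF : Lip F) (hG : Lip G)
    (h : ∀ x, F ((1/2:ℝ) • x) = G x / 2) (l : List ℝ) (x : X) :
    op s (l.map (fun a => a / 2)) F ((1/2:ℝ) • x) = op s l G x / 2 := by
  induction l generalizing x with
  | nil => exact h x
  | cons a l ih => exact A_scale hs (hF.op hs _) (hG.op hs l) ih a x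

lemma realize (hs : ∀ n, ‖s n‖ ≤ 1) {ι : Type*} (J : Finset ι) (F : ι → X → ℝ)
    (hF : ∀ j, Lip (F j)) (l : List ℝ) : ∀ (Y : Finset X) (κ : ℝ), 0 < κ →
    ∃ v : X, ∀ j ∈ J, ∀ y ∈ Y, |F j (y + v) - op s l (F j) y| ≤ κ := by
  classical
  induction l with
  | nil =>
    intro Y κ hκ
    refine ⟨0, fun j _ y _ => ?_⟩
    simp [hκ.le]
  | cons a l ih =>
    intro Y κ hκ
    have hev : ∀ᶠ n in (hyperfilter ℕ : Filter ℕ), ∀ j ∈ J, ∀ y ∈ Y,
        |op s l (F j) (y + a • s n) - op s (a :: l) (F j) y| ≤ κ / 2 := by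
      rw [Filter.eventually_all_finset]
      intro j _
      rw [Filter.eventually_all_finset]
      intro y _
      have h := tendsto_A hs ((hF j).op hs l) a y
      have h2 := (h.sub_const (op s (a :: l) (F j) y)).abs
      have h3 : |A s a (op s l (F j)) y - op s (a :: l) (F j) y| < κ / 2 := by
        rw [op_cons, sub_self, abs_zero]
        linarith
      exact (h2.eventually_le_const h3)
    obtain ⟨n, hn⟩ := hev.exists
    obtain ⟨v, hv⟩ := ih (Y.image (fun y => y + a • s n)) (κ / 2) (by linarith)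
    refine ⟨a • s n + v, fun j hj y hy => ?_⟩
    have h1 := hv j hj (y + a • s n) (Finset.mem_image_of_mem _ hy)
    have h2 := hn j hj y hy
    have e : y + (a • s n + v) = y + a • s n + v := by abel
    rw [e]
    have := abs_sub_le (F j (y + a • s n + v)) (op s l (F j) (y + a • s n))
      (op s (a :: l) (F j) y)
    linarith

end Pool.Agent.R571.PC
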