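import Pool.Agent.R571.PC.Gain
import Pool.Agent.R571.PC.FinDim

/-! Equivalent uniformly convex norms give hypothesis (H). -/

namespace Pool.Agent.R571.PC

open Filter Topology

/-- `E` admits an equivalent uniformly convex norm `q`. -/
def HasEquivUCNorm (E : Type*) [NormedAddCommGroup E] [NormedSpace ℝ E] : Prop :=
  ∃ q : Seminorm ℝ E, (∃ c : ℝ, 0 < c ∧ ∀ x, c * ‖x‖ ≤ q x) ∧ (∃ C : ℝ, ∀ x, q x ≤ C * ‖x‖) ∧
    ∀ ε : ℝ, 0 < ε → ε ≤ 2 → ∃ δ : ℝ, 0 < δ ∧ ∀ x y, q x ≤ 1 → q y ≤ 1 → ε ≤ q (x - y) →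
      q ((1/2:ℝ) • (x + y)) ≤ 1 - δ

variable {X : Type*} [NormedAddCommGroup X] [NormedSpace ℝ X]

lemma ucnorm_of_completion (h : HasEquivUCNorm (UniformSpace.Completion X)) :
    HasEquivUCNorm X := by
  obtain ⟨q, ⟨c, hc, hqc⟩, ⟨C, hqC⟩, hq⟩ := h
  refine ⟨q.comp (UniformSpace.Completion.toComplₗᵢ : X →ₗᵢ[ℝ] UniformSpace.Completion X).toLinearMap,
    ⟨c, hc, fun x => ?_⟩, ⟨C, fun x => ?_⟩, fun ε hε hε2 => ?_⟩
  · have := hqc (x : UniformSpace.Completion X)
    rw [UniformSpace.Completion.norm_coe] at this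
    exact this
  · have := hqC (x : UniformSpace.Completion X)
    rw [UniformSpace.Completion.norm_coe] at this
    exact this
  · obtain ⟨δ, hδ, hq2⟩ := hq ε hε hε2
    refine ⟨δ, hδ, fun x y hx hy hxy => ?_⟩
    rw [Seminorm.comp_apply] at hx hy hxy ⊢
    rw [map_sub] at hxy
    have := hq2 _ _ hx hy hxy
    rw [map_smul, map_add]
    exact this

lemma signs_of_ucnorm (h : HasEquivUCNorm X) : SignSumsUnbounded X := by
  obtain ⟨q, ⟨c, hc, hqc⟩, ⟨C, hqC⟩, hq⟩ := h
  intro C0
  set M0 : ℝ := |C| * |C0| + c with hM0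
  have hM0c : c ≤ M0 := by
    have : 0 ≤ |C| * |C0| := by positivity
    linarith
  have hM0p : 0 < M0 := by linarith
  have hbig : ∀ y, M0 < q y → C0 < ‖y‖ := by
    intro y hy
    by_contra hcon
    push Not at hcon
    have h1 := hqC y
    have h2 : C * ‖y‖ ≤ |C| * |C0| := by
      calc C * ‖y‖ ≤ |C| * ‖y‖ := mul_le_mul_of_nonneg_right (le_abs_self _) (norm_nonneg _)
        _ ≤ |C| * |C0| := mul_le_mul_of_nonneg_left (hcon.trans (le_abs_self _)) (abs_nonneg _)
    linarith
  obtain ⟨δ, hδ, hq2⟩ := hq (2 * c / M0) (by positivity) (by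
    rw [div_le_iff₀ hM0p]
    linarith)
  have hadd : ∀ y v : X, 2 * q y ≤ q (y + v) + q (y - v) := by
    intro y v
    have h1 := map_add_le_add q (y + v) (y - v)
    have h2 : y + v + (y - v) = (2:ℝ) • y := by module
    rw [h2, map_smul_eq_mul, Real.norm_eq_abs, abs_two] at h1
    exact h1
  have hadd2 : ∀ y v : X, 2 * q v ≤ q (y + v) + q (y - v) := by
    intro y v
    have h1 := map_sub_le_add q (y + v) (y - v)
    have h2 : y + v - (y - v) = (2:ℝ) • v := by module
    rw [h2, map_smul_eq_mul, Real.norm_eq_abs, abs_two] at h1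
    exact h1
  have hstep : ∀ y v : X, c ≤ q v → ∃ t : ℝ, (t = 1 ∨ t = -1) ∧
      (M0 < q (y + t • v) ∨ (1 + δ) * q y ≤ q (y + t • v)) := by
    intro y v hv
    -- choose the larger
    obtain ⟨t, ht, hmax1, hmax2⟩ : ∃ t : ℝ, (t = 1 ∨ t = -1) ∧ q (y + v) ≤ q (y + t • v) ∧
        q (y - v) ≤ q (y + t • v) := by
      rcases le_total (q (y - v)) (q (y + v)) with h | h
      · exact ⟨1, Or.inl rfl, by rw [one_smul], by rw [one_smul]; exact h⟩
      · refine ⟨-1, Or.inr rfl, ?_, ?_⟩
        · rw [neg_smul, one_smul, ← sub_eq_add_neg]; exact h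
        · rw [neg_smul, one_smul, ← sub_eq_add_neg]
    refine ⟨t, ht, ?_⟩
    by_cases hbM : M0 < q (y + t • v)
    · exact Or.inl hbM
    right
    push Not at hbM
    set M := q (y + t • v) with hM
    have hMc : c ≤ M := by
      have := hadd2 y v
      linarith
    have hMp : 0 < M := by linarith
    have hs : ∀ z : X, q ((1 / M) • z) = q z / M := by
      intro z
      rw [map_smul_eq_mul, Real.norm_eq_abs, abs_of_pos (by positivity)]
      ring
    have h1 := hq2 ((1 / M) • (y + v)) ((1 / M) • (y - v))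
      (by rw [hs, div_le_one hMp]; exact hmax1)
      (by rw [hs, div_le_one hMp]; exact hmax2)
      (by
        have e1 : (1 / M) • (y + v) - (1 / M) • (y - v) = (1 / M) • ((2:ℝ) • v) := by module
        rw [e1, hs, map_smul_eq_mul, Real.norm_eq_abs, abs_two,
          div_le_div_iff₀ hM0p hMp]
        nlinarith)
    have e2 : (1/2:ℝ) • ((1 / M) • (y + v) + (1 / M) • (y - v)) = (1 / M) • y := by module
    rw [e2, hs, div_le_iff₀ hMp] at h1
    have h7 := mul_le_mul_of_nonneg_left h1 (by linarith : 0 ≤ 1 + δ)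
    have h8 : 0 ≤ δ * δ * M := by positivity
    nlinarith
  -- induction
  have hind : ∀ (k : ℕ) (v : ℕ → X), (∀ i < k + 1, 1 ≤ ‖v i‖) → ∃ θ : ℕ → ℝ,
      (∀ i, θ i = 1 ∨ θ i = -1) ∧ (M0 < q (∑ i ∈ Finset.range (k + 1), θ i • v i) ∨
        c * (1 + δ) ^ k ≤ q (∑ i ∈ Finset.range (k + 1), θ i • v i)) := by
    intro k v
    induction k with
    | zero =>
      intro hv
      refine ⟨fun _ => 1, fun _ => Or.inl rfl, Or.inr ?_⟩
      have h1 := hqc (v 0)
      have h2 := hv 0 (by omega)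
      simp only [zero_add, Finset.range_one, Finset.sum_singleton, one_smul, pow_zero, mul_one]
      nlinarith
    | succ k ih =>
      intro hv
      obtain ⟨θ, hθ, hθ2⟩ := ih (fun i hi => hv i (by omega))
      set y := ∑ i ∈ Finset.range (k + 1), θ i • v i with hy
      have hsum : ∀ t : ℝ, ∑ i ∈ Finset.range (k + 1 + 1), Function.update θ (k + 1) t i • v i =
          y + t • v (k + 1) := by
        intro t
        rw [Finset.sum_range_succ, Function.update_self]
        congr 1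
        refine Finset.sum_congr rfl fun i hi => ?_
        rw [Function.update_of_ne (by have := Finset.mem_range.1 hi; omega)]
      have hup : ∀ t : ℝ, (t = 1 ∨ t = -1) → ∀ i, Function.update θ (k + 1) t i = 1 ∨
          Function.update θ (k + 1) t i = -1 := by
        intro t ht i
        by_cases hi : i = k + 1
        · subst hi
          rw [Function.update_self]
          exact ht
        · rw [Function.update_of_ne hi]
          exact hθ i
      rcases hθ2 with h1 | h1
      · have h2 := hadd y (v (k + 1))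
        rcases le_total (q (y - v (k + 1))) (q (y + v (k + 1))) with h | h
        · refine ⟨Function.update θ (k + 1) 1, hup 1 (Or.inl rfl), Or.inl ?_⟩
          rw [hsum, one_smul]
          linarith
        · refine ⟨Function.update θ (k + 1) (-1), hup (-1) (Or.inr rfl), Or.inl ?_⟩
          rw [hsum, neg_smul, one_smul, ← sub_eq_add_neg]
          linarith
      · obtain ⟨t, ht, ht2⟩ := hstep y (v (k + 1)) (by
          have h3 := hqc (v (k + 1))
          have h4 := hv (k + 1) (by omega)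
          nlinarith)
        refine ⟨Function.update θ (k + 1) t, hup t ht, ?_⟩
        rw [hsum]
        rcases ht2 with h5 | h5
        · exact Or.inl h5
        · right
          rw [pow_succ]
          nlinarith
  obtain ⟨k, hk⟩ := pow_unbounded_of_one_lt (M0 / c) (by linarith : 1 < 1 + δ)
  refine ⟨k + 1, fun v hv => ?_⟩
  obtain ⟨θ, hθ, hθ2⟩ := hind k (fun i => if h : i < k + 1 then v ⟨i, h⟩ else 0) (by
    intro i hi
    simp only [hi, dif_pos]
    exact hv _)
  refine ⟨fun i => θ i, fun i => hθ i, ?_⟩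
  have e1 : ∑ i ∈ Finset.range (k + 1), θ i • (if h : i < k + 1 then v ⟨i, h⟩ else 0) =
      ∑ i : Fin (k + 1), θ i • v i := by
    rw [Finset.sum_range]
    refine Finset.sum_congr rfl fun i _ => ?_
    rw [dif_pos i.2]
  rw [e1] at hθ2
  apply hbig
  rcases hθ2 with h1 | h1
  · exact h1
  · refine lt_of_lt_of_le ?_ h1
    rw [div_lt_iff₀ hc] at hk
    linarith

/-- the simultaneous packing and covering constant -/
noncomputable def gamma (X : Type*) [NormedAddCommGroup X] [NormedSpace ℝ X] : ℝ :=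
  sInf {r : ℝ | 0 < r ∧ ∃ P : Set X, (∀ x ∈ P, ∀ y ∈ P, x ≠ y → 2 ≤ ‖x - y‖) ∧
    ∀ x, ∃ p ∈ P, ‖x - p‖ ≤ r}

theorem gamma_lt_two [TopologicalSpace.SeparableSpace X] (h : SignSumsUnbounded X) :
    gamma X < 2 := by
  obtain ⟨r, hr, P, hP1, hP2⟩ : ∃ r : ℝ, r < 2 ∧ ∃ P : Set X,
      (∀ x ∈ P, ∀ y ∈ P, x ≠ y → 2 ≤ ‖x - y‖) ∧ ∀ x, ∃ p ∈ P, ‖x - p‖ ≤ r := by
    by_cases hfin : FiniteDimensional ℝ X
    · exact finite_dim
    · exact infinite_dim h hfin
  have h1 : gamma X ≤ max r 1 := by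
    apply csInf_le
    · exact ⟨0, fun x hx => hx.1.le⟩
    · refine ⟨lt_of_lt_of_le one_pos (le_max_right _ _), P, hP1, fun x => ?_⟩
      obtain ⟨p, hp, hxp⟩ := hP2 x
      exact ⟨p, hp, hxp.trans (le_max_left _ _)⟩
  exact lt_of_le_of_lt h1 (max_lt hr one_lt_two)

end Pool.Agent.R571.PC
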